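import Pool.Agent.Helper859.Stk.Final
set_option linter.all false
open Metric Set

namespace Pool.Agent.Results.MP_33ede1_an.PlanarPair

/-- `ν` is the outward unit normal of `Ω` at the point `p`: `ν` is a unit vector and, up to directions
which make an arbitrarily small angle with the tangent line, the points near `p` on the side of `-ν`
belong to `Ω` and the points near `p` on the side of `ν` do not.  (`re (conj ν * (z - p))` is the real
inner product of `ν` and `z - p` in `ℂ = ℝ^2`.) -/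
def IsOuterNormal (Ω : Set ℂ) (p ν : ℂ) : Prop :=
  ‖ν‖ = 1 ∧ ∀ ε : ℝ, 0 < ε → ∃ δ : ℝ, 0 < δ ∧ ∀ z : ℂ, ‖z - p‖ < δ →
    (((starRingEnd ℂ) ν * (z - p)).re < -(ε * ‖z - p‖) → z ∈ Ω) ∧
    (ε * ‖z - p‖ < ((starRingEnd ℂ) ν * (z - p)).re → z ∉ Ω)

/-- Steklov eigenfunctions: `u` is harmonic in `Ω`, `C^1` up to the boundary (`v` and `D` are the
continuous extensions of `u` and of its derivative to the closure of `Ω`) and satisfies
`∂u/∂ν = σ u` on the boundary of `Ω`.  The function is normalised to be `0` outside `Ω`, so that it is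
determined by its values in `Ω`. -/
structure IsSteklov (Ω : Set ℂ) (σ : ℝ) (u : ℂ → ℝ) : Prop where
  off : ∀ z, z ∉ Ω → u z = 0
  harm : InnerProductSpace.HarmonicOnNhd u Ω
  ext : ∃ (v : ℂ → ℝ) (D : ℂ → ℂ →L[ℝ] ℝ), ContinuousOn v (closure Ω) ∧
    ContinuousOn D (closure Ω) ∧ (∀ z ∈ Ω, v z = u z ∧ D z = fderiv ℝ u z) ∧
    ∀ p ∈ frontier Ω, ∀ ν : ℂ, IsOuterNormal Ω p ν → D p ν = σ * v p

/-- The Steklov eigenspace of `Ω` for the real number `σ` (it is `0` unless `σ` is an eigenvalue; the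
multiplicity of the eigenvalue `σ` is its dimension). -/
def steklovSpace (Ω : Set ℂ) (σ : ℝ) : Submodule ℝ (ℂ → ℝ) where
  carrier := {u | IsSteklov Ω σ u}
  add_mem' := by
    rintro u₁ u₂ ⟨o1, h1, v1, D1, c1, e1, f1, g1⟩ ⟨o2, h2, v2, D2, c2, e2, f2, g2⟩
    refine ⟨fun z hz => by simp [o1 z hz, o2 z hz], fun z hz => (h1 z hz).add (h2 z hz),
      v1 + v2, D1 + D2, c1.add c2, e1.add e2, ?_, ?_⟩
    · intro z hz
      refine ⟨by simp [(f1 z hz).1, (f2 z hz).1], ?_⟩
      have d1 : DifferentiableAt ℝ u₁ z := (h1 z hz).1.differentiableAt (by norm_num)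
      have d2 : DifferentiableAt ℝ u₂ z := (h2 z hz).1.differentiableAt (by norm_num)
      rw [fderiv_add d1 d2, Pi.add_apply, (f1 z hz).2, (f2 z hz).2]
    · intro p hp ν hν
      simp only [Pi.add_apply, ContinuousLinearMap.add_apply, g1 p hp ν hν, g2 p hp ν hν]
      ring
  zero_mem' := by
    refine ⟨fun _ _ => rfl, fun z hz => ?_, 0, 0, continuousOn_const, continuousOn_const,
      fun z hz => ⟨rfl, by simp⟩, fun p hp ν hν => by simp⟩
    exact InnerProductSpace.harmonicAt_const (0 : ℝ)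
  smul_mem' := by
    rintro a u ⟨o1, h1, v1, D1, c1, e1, f1, g1⟩
    refine ⟨fun z hz => by simp [o1 z hz], fun z hz => (h1 z hz).const_smul,
      a • v1, a • D1, c1.const_smul a, e1.const_smul a, ?_, ?_⟩
    · intro z hz
      refine ⟨by simp [(f1 z hz).1], ?_⟩
      have d1 : DifferentiableAt ℝ u z := (h1 z hz).1.differentiableAt (by norm_num)
      rw [fderiv_const_smul d1, Pi.smul_apply, (f1 z hz).2]
    · intro p hp ν hν
      simp only [Pi.smul_apply, ContinuousLinearMap.smul_apply, g1 p hp ν hν, smul_eq_mul]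
      ring

/-- A bounded simply connected plane domain whose boundary is a real-analytic Jordan curve: the image
of the unit disc under a map which is holomorphic and injective on the disc of radius `3/2`. -/
def IsAnalyticDomain (Ω : Set ℂ) : Prop :=
  ∃ F : ℂ → ℂ, DifferentiableOn ℂ F (ball (0 : ℂ) (3 / 2)) ∧ InjOn F (ball (0 : ℂ) (3 / 2)) ∧
    Ω = F '' ball (0 : ℂ) 1

open Pool.Agent.Helper859 in
theorem space_eq (Ω : Set ℂ) (σ : ℝ) : steklovSpace Ω σ = Stk.steklovSpace Ω σ := by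
  ext u
  constructor
  · rintro ⟨a, b, v, D, c⟩
    exact ⟨a, b, v, D, c⟩
  · rintro ⟨a, b, v, D, c⟩
    exact ⟨a, b, v, D, c⟩

open Pool.Agent.Helper859 in
theorem props {F G : ℂ → ℂ} (h : Stk.Conf F G) :
    IsOpen (F '' ball (0 : ℂ) 1) ∧ IsConnected (F '' ball (0 : ℂ) 1) ∧
      Bornology.IsBounded (F '' ball (0 : ℂ) 1) ∧ IsAnalyticDomain (F '' ball (0 : ℂ) 1) ∧
      ∀ p ∈ frontier (F '' ball (0 : ℂ) 1), ∃! ν : ℂ, IsOuterNormal (F '' ball (0 : ℂ) 1) p ν := by
  obtain ⟨h1, -, h3, h4, -⟩ := Stk.L03a.topo h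
  have hc : ContinuousOn F (ball (0 : ℂ) (3 / 2)) := fun z hz => (h.dF z hz).continuousAt.continuousWithinAt
  have hsub : ball (0 : ℂ) 1 ⊆ ball (0 : ℂ) (3 / 2) := ball_subset_ball (by norm_num)
  have hsub' : closedBall (0 : ℂ) 1 ⊆ ball (0 : ℂ) (3 / 2) := closedBall_subset_ball (by norm_num)
  refine ⟨h1, ?_, ?_, ⟨F, ?_, h.iF, rfl⟩, ?_⟩
  · exact (Metric.isConnected_ball (by norm_num)).image F (hc.mono hsub)
  · have hk : IsCompact (F '' closedBall (0 : ℂ) 1) := (isCompact_closedBall _ _).image_of_continuousOn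
      (hc.mono hsub')
    exact hk.isBounded.subset (image_mono ball_subset_closedBall)
  · intro z hz
    exact (h.dF z hz).differentiableAt.differentiableWithinAt
  · intro p hp
    rw [h4] at hp
    obtain ⟨ζ, hζ, rfl⟩ := hp
    refine ⟨_, Stk.L02a.outerNormal_of h (by simpa using hζ), ?_⟩
    intro ν hν
    exact Stk.L02b.outerNormal_unique hν (Stk.L02a.outerNormal_of h (by simpa using hζ))

/-- There are two bounded simply connected plane domains with real-analytic boundary which are not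
congruent and have the same Steklov spectrum, multiplicities included. -/
theorem result : ∃ Ω₁ Ω₂ : Set ℂ,
    (IsOpen Ω₁ ∧ IsConnected Ω₁ ∧ Bornology.IsBounded Ω₁ ∧ IsAnalyticDomain Ω₁ ∧
      ∀ p ∈ frontier Ω₁, ∃! ν : ℂ, IsOuterNormal Ω₁ p ν) ∧
    (IsOpen Ω₂ ∧ IsConnected Ω₂ ∧ Bornology.IsBounded Ω₂ ∧ IsAnalyticDomain Ω₂ ∧
      ∀ p ∈ frontier Ω₂, ∃! ν : ℂ, IsOuterNormal Ω₂ p ν) ∧
    (¬ ∃ e : ℂ ≃ᵢ ℂ, e '' Ω₁ = Ω₂) ∧
    ∀ σ : ℝ, Nonempty (steklovSpace Ω₁ σ ≃ₗ[ℝ] steklovSpace Ω₂ σ) := by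
  obtain ⟨F₁, G₁, F₂, G₂, c1, c2, hn, hs⟩ := Pool.Agent.Helper859.Stk.main
  refine ⟨_, _, props c1, props c2, hn, fun σ => ?_⟩
  rw [space_eq, space_eq]
  exact hs σ

end Pool.Agent.Results.MP_33ede1_an.PlanarPair
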